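import Pool.Agent.KS6_5.OG.Defs
import Pool.Agent.KS6_5.OC.Letters

/-!
# Ordinary elliptic curves
-/

set_option autoImplicit false

namespace Pool.Agent.KS6_5.OG

open NumberField Polynomial Pool.Agent.TH121.KT Pool.Agent.KS6_5.SP Pool.Agent.KS6_5.OC
  Pool.Agent.W902.TB

noncomputable section

/-- the prime ideals of the ring of integers of the smallest field -/
theorem bot_one_place (p : ℕ) [hp : Fact p.Prime] :
    ∃! Q : Ideal (𝓞 (⊥ : IntermediateField ℚ Qb)), Q.IsPrime ∧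
      (p : 𝓞 (⊥ : IntermediateField ℚ Qb)) ∈ Q := by
  let e : 𝓞 (⊥ : IntermediateField ℚ Qb) ≃+* ℤ :=
    (RingOfIntegers.mapRingEquiv (IntermediateField.botEquiv ℚ Qb).toRingEquiv).trans
      Rat.ringOfIntegersEquiv
  have hprime : Prime (p : ℤ) := Nat.prime_iff_prime_int.1 hp.out
  have hP : (Ideal.span {(p : ℤ)}).IsPrime := by
    rw [Ideal.span_singleton_prime hprime.ne_zero]
    exact hprime
  have hmax : (Ideal.span {(p : ℤ)}).IsMaximal := by
    refine hP.isMaximal ?_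
    rw [Ne, Ideal.span_singleton_eq_bot]
    exact hprime.ne_zero
  refine ⟨(Ideal.span {(p : ℤ)}).comap e, ⟨Ideal.comap_isPrime _ _, ?_⟩, ?_⟩
  · rw [Ideal.mem_comap, map_natCast]
    exact Ideal.mem_span_singleton_self _
  · rintro Q ⟨hQ, hpQ⟩
    have h1 : Ideal.span {(p : ℤ)} ≤ Q.comap e.symm := by
      rw [Ideal.span_singleton_le_iff_mem, Ideal.mem_comap, map_natCast]
      exact hpQ
    have h2 : (Q.comap e.symm) ≠ ⊤ := (Ideal.comap_isPrime (f := (e.symm : ℤ →+* _)) Q).ne_top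
    have h3 := hmax.eq_of_le h2 h1
    rw [h3]
    ext x
    rw [Ideal.mem_comap, Ideal.mem_comap]
    exact (iff_of_eq (congrArg (· ∈ Q) (e.symm_apply_apply x))).symm

/-- the characteristic polynomial of the Frobenius endomorphism of an elliptic curve -/
def ellPoly (q : ℕ) (b : ℤ) : ℤ[X] := X ^ 2 - C b * X + C (q : ℤ)

theorem ellPoly_monic (q : ℕ) (b : ℤ) : (ellPoly q b).Monic := by
  unfold ellPoly
  monicity!

theorem aeval_ellPoly {R : Type*} [CommRing R] [Algebra ℤ R] (q : ℕ) (b : ℤ) (z : R) :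
    aeval z (ellPoly q b) = z ^ 2 - b * z + q := by
  simp [ellPoly]

variable {p : ℕ} [hp : Fact p.Prime] {a : ℕ}

theorem ell_conj {q : ℕ} {b : ℤ} {z : Qb} (hq : (q : Qb) ≠ 0) (hz : aeval z (ellPoly q b) = 0) :
    z ≠ 0 ∧ z + q / z = b ∧ aeval ((q : Qb) / z) (ellPoly q b) = 0 := by
  rw [aeval_ellPoly] at hz
  have hz0 : z ≠ 0 := by
    rintro rfl
    apply hq
    simpa using hz
  refine ⟨hz0, ?_, ?_⟩
  · field_simp
    linear_combination hz
  · rw [aeval_ellPoly]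
    field_simp
    linear_combination (q : Qb) * hz

/-- **Ordinary elliptic curves.** -/
theorem ell_hasSlopes {b : ℤ} (hb : ¬ (p : ℤ) ∣ b) (hd : b ^ 2 < 4 * (p ^ a : ℕ)) :
    HasSlopes p (p ^ a) (1 / 2) (ellPoly (p ^ a) b) where
  monic := ellPoly_monic _ _
  weil := by
    intro z hz φ
    have hqpos : 0 < p ^ a := pow_pos hp.out.pos _
    have h1 : (φ z) ^ 2 - b * φ z + ((p ^ a : ℕ) : ℂ) = 0 := by
      rw [aeval_ellPoly] at hz
      have := congrArg φ hz
      simpa using this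
    set u := φ z with hu
    have hre := congrArg Complex.re h1
    have him := congrArg Complex.im h1
    have e1 : (u ^ 2).re = u.re ^ 2 - u.im ^ 2 := by rw [sq, Complex.mul_re]; ring
    have e2 : (u ^ 2).im = 2 * u.re * u.im := by rw [sq, Complex.mul_im]; ring
    have e3 : ((b : ℂ) * u).re = b * u.re := by rw [← Complex.ofReal_intCast, Complex.re_ofReal_mul]
    have e4 : ((b : ℂ) * u).im = b * u.im := by rw [← Complex.ofReal_intCast, Complex.im_ofReal_mul]
    rw [Complex.add_re, Complex.sub_re, e1, e3, Complex.natCast_re, Complex.zero_re] at hre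
    rw [Complex.add_im, Complex.sub_im, e2, e4, Complex.natCast_im, Complex.zero_im] at him
    have hd' : (b : ℝ) ^ 2 < 4 * ((p ^ a : ℕ) : ℝ) := by exact_mod_cast hd
    have him0 : u.im ≠ 0 := by
      intro h0
      rw [h0] at hre
      nlinarith [sq_nonneg (2 * u.re - b)]
    have h2 : 2 * u.re = b := by
      have h3 : (2 * u.re - b) * u.im = 0 := by linear_combination him
      have := (mul_eq_zero.1 h3).resolve_right him0
      linarith
    rw [Complex.sq_norm, Complex.normSq_apply]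
    rw [← h2] at hre
    linarith
  slope := by
    intro z hz l
    have hqpos : 0 < p ^ a := pow_pos hp.out.pos _
    have hqQ : ((p ^ a : ℕ) : Qb) ≠ 0 := Nat.cast_ne_zero.2 hqpos.ne'
    obtain ⟨hz0, hsum, hz'⟩ := ell_conj hqQ hz
    have hint : ∀ w : Qb, aeval w (ellPoly (p ^ a) b) = 0 → ‖l w‖ ≤ 1 := by
      intro w hw
      have : IsIntegral ℤ w := ⟨ellPoly (p ^ a) b, ellPoly_monic _ _, hw⟩
      exact norm_le_one_of_isIntegral _ (this.map l.toIntAlgHom)
    have h1 := hint z hz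
    have h2 := hint _ hz'
    have hbn : ‖(b : PadicAlgCl p)‖ = 1 := by
      have h4 : (b : PadicAlgCl p) = algebraMap ℚ_[p] (PadicAlgCl p) (b : ℚ_[p]) := by simp
      rw [h4, PadicAlgCl.norm_extends]
      have h5 := (Padic.norm_intCast_lt_one_iff (p := p) (k := b)).not.2 hb
      exact le_antisymm (Padic.norm_int_le_one b) (not_lt.1 h5)
    have hs : l z + l ((((p ^ a : ℕ) : Qb)) / z) = b := by
      rw [← map_add, hsum, map_intCast]
    have hpr : ‖l z‖ * ‖l ((((p ^ a : ℕ) : Qb)) / z)‖ = (((p ^ a : ℕ) : ℝ))⁻¹ := by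
      rw [← norm_mul, ← map_mul, mul_div_cancel₀ _ hz0, map_natCast, norm_q]
    have hqR : (0 : ℝ) < ((p ^ a : ℕ) : ℝ) := Nat.cast_pos.2 hqpos
    have e1 : ((p ^ a : ℕ) : ℝ) ^ (-((1 : ℝ) / 2 + 1 / 2)) = (((p ^ a : ℕ) : ℝ))⁻¹ := by
      rw [show (-((1 : ℝ) / 2 + 1 / 2)) = -1 by norm_num, Real.rpow_neg_one]
    have e2 : ((p ^ a : ℕ) : ℝ) ^ (-((1 : ℝ) / 2 - 1 / 2)) = 1 := by
      rw [show (-((1 : ℝ) / 2 - 1 / 2)) = 0 by norm_num, Real.rpow_zero]
    rw [e1, e2]
    rcases h1.lt_or_eq with h | h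
    · rcases h2.lt_or_eq with h' | h'
      · exfalso
        have h3 : ‖(b : PadicAlgCl p)‖ ≤ max ‖l z‖ ‖l ((((p ^ a : ℕ) : Qb)) / z)‖ := by
          rw [← hs]
          exact PadicAlgCl.isNonarchimedean p _ _
        rw [hbn] at h3
        exact absurd h3 (not_le.2 (max_lt h h'))
      · left
        rw [h', mul_one] at hpr
        exact hpr
    · right
      exact h

theorem ell_real (p : ℕ) [Fact p.Prime] (a : ℕ) (b : ℤ) :
    RealFieldsOnePlace p (p ^ a) (ellPoly (p ^ a) b) := by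
  intro z hz
  have hqpos : 0 < p ^ a := pow_pos (Fact.out : p.Prime).pos _
  have hqQ : ((p ^ a : ℕ) : Qb) ≠ 0 := Nat.cast_ne_zero.2 hqpos.ne'
  obtain ⟨hz0, hsum, -⟩ := ell_conj hqQ hz
  refine ⟨1, one_pos, ⊥, inferInstance, isGalois_bot, ?_, bot_one_place p, ?_⟩
  · rw [pow_one, pow_one, hsum]
    exact IntermediateField.mem_bot.2 ⟨b, by simp⟩
  · intro S
    have h1 : Subsingleton ((⊥ : IntermediateField ℚ Qb) ≃ₐ[ℚ] (⊥ : IntermediateField ℚ Qb)) := by
      refine ⟨fun f g => AlgEquiv.ext fun x => ?_⟩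
      obtain ⟨y, hy⟩ := IntermediateField.mem_bot.1 x.2
      have hx : x = algebraMap ℚ (⊥ : IntermediateField ℚ Qb) y := Subtype.ext hy.symm
      rw [hx, f.commutes, g.commutes]
    exact isCyclic_of_subsingleton

theorem ell_not_pow (ha : 0 < a) {c : ℤ} (hc : ¬ (p : ℤ) ∣ c) (hcd : c ^ 2 < 4 * (p ^ a : ℕ))
    {w : Qb} (hw : aeval w (ellPoly (p ^ a) c) = 0) {r : ℕ} (hr : 0 < r) :
    w ^ r ≠ (((p ^ a : ℕ) : Qb) / w) ^ r := by
  intro hwr
  obtain ⟨ιp⟩ : Nonempty (Qb →ₐ[ℚ] PadicAlgCl p) := ⟨IsAlgClosed.lift⟩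
  have H := ell_hasSlopes (a := a) hc hcd
  have h1 := H.log_letter (by norm_num) hw ιp.toRingHom
  have hqpos : 0 < p ^ a := pow_pos hp.out.pos _
  have hqQ : ((p ^ a : ℕ) : Qb) ≠ 0 := Nat.cast_ne_zero.2 hqpos.ne'
  have hw0 := H.ne_zero hw
  have h2 : (w ^ 2 / ((p ^ a : ℕ) : Qb)) ^ r = 1 := by
    rw [div_pow, div_eq_one_iff_eq (pow_ne_zero _ hqQ), ← pow_mul, mul_comm 2 r, pow_mul, sq]
    nth_rewrite 2 [hwr]
    rw [← mul_pow, mul_div_cancel₀ _ hw0]
  have h3 : (r : ℝ) * Real.log ‖ιp.toRingHom (w ^ 2 / ((p ^ a : ℕ) : Qb))‖ = 0 := by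
    rw [← Real.log_pow, ← norm_pow, ← map_pow, h2, map_one, norm_one, Real.log_one]
  have hr' : (r : ℝ) ≠ 0 := Nat.cast_ne_zero.2 hr.ne'
  rw [(mul_eq_zero.1 h3).resolve_left hr', abs_zero] at h1
  have h4 : 0 < Real.log ((p ^ a : ℕ) : ℝ) :=
    Real.log_pos (by exact_mod_cast Nat.one_lt_pow ha.ne' hp.out.one_lt)
  linarith

/-- Two quadratic numbers in different fields. -/
theorem ell_neat (ha : 0 < a) {b b' : ℤ} (hb : ¬ (p : ℤ) ∣ b) (hb' : ¬ (p : ℤ) ∣ b')
    (hd : b ^ 2 < 4 * (p ^ a : ℕ)) (hd' : b' ^ 2 < 4 * (p ^ a : ℕ))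
    (h : b = b' ∨ ¬ IsSquare ((b ^ 2 - 4 * (p ^ a : ℕ)) * (b' ^ 2 - 4 * (p ^ a : ℕ)))) {z z' : Qb}
    (hz : aeval z (ellPoly (p ^ a) b) = 0) (hz' : aeval z' (ellPoly (p ^ a) b') = 0) {m : ℕ}
    (hm : 0 < m) (hzz : (z * z') ^ m = ((p ^ a : ℕ) : Qb) ^ m) :
    z * z' = ((p ^ a : ℕ) : Qb) := by
  have hqpos : 0 < p ^ a := pow_pos hp.out.pos _
  have n1 := ell_not_pow ha hb hd hz hm
  have n2 := ell_not_pow ha hb' hd' hz' hm
  have hqQ' : ((p ^ a : ℕ) : Qb) ≠ 0 := Nat.cast_ne_zero.2 hqpos.ne'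
  obtain ⟨hz0, hsum, hzc⟩ := ell_conj hqQ' hz
  obtain ⟨hz0', hsum', hzc'⟩ := ell_conj hqQ' hz'
  have hcast : ((((p ^ a : ℕ) : ℤ)) : Qb) = ((p ^ a : ℕ) : Qb) := by push_cast; rfl
  set q : Qb := ((p ^ a : ℕ) : Qb) with hq
  have hqQ : q ≠ 0 := hqQ'
  have e1 := hz
  have e2 := hz'
  rw [aeval_ellPoly] at e1 e2
  rw [← hq] at e1 e2
  rcases h with rfl | h
  · have h3 : (z' - z) * (z' * z - q) = 0 := by
      linear_combination z * e2 - z' * e1
    rcases mul_eq_zero.1 h3 with h4 | h4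
    · exfalso
      apply n1
      rw [sub_eq_zero.1 h4] at hzz
      rw [div_pow, eq_div_iff (pow_ne_zero _ hz0), ← mul_pow, hzz]
    · rw [mul_comm]
      exact sub_eq_zero.1 h4
  · exfalso
    let u : Qb := 2 * z - b
    let u' : Qb := 2 * z' - b'
    have hu : u ^ 2 = ((b ^ 2 - 4 * (p ^ a : ℕ) : ℤ) : Qb) := by
      push_cast
      simp only [u]
      rw [hq] at e1
      push_cast at e1
      linear_combination 4 * e1
    have hu' : u' ^ 2 = ((b' ^ 2 - 4 * (p ^ a : ℕ) : ℤ) : Qb) := by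
      push_cast
      simp only [u']
      rw [hq] at e2
      push_cast at e2
      linear_combination 4 * e2
    have huu : (u * u') ^ 2 = (((b ^ 2 - 4 * (p ^ a : ℕ)) * (b' ^ 2 - 4 * (p ^ a : ℕ)) : ℤ) : Qb) := by
      rw [mul_pow, hu, hu', Int.cast_mul]
    have hnot : ¬ ∀ g : GQ, g (u * u') = u * u' := by
      intro hall
      obtain ⟨r, hr⟩ := (InfiniteGalois.mem_range_algebraMap_iff_fixed (k := ℚ) (u * u')).2 hall
      apply h
      have h5 : (r : ℚ) ^ 2 = (((b ^ 2 - 4 * (p ^ a : ℕ)) * (b' ^ 2 - 4 * (p ^ a : ℕ)) : ℤ) : ℚ) := by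
        apply (algebraMap ℚ Qb).injective
        rw [map_pow, hr, huu, map_intCast]
      have h6 : IsSquare ((((b ^ 2 - 4 * (p ^ a : ℕ)) * (b' ^ 2 - 4 * (p ^ a : ℕ)) : ℤ) : ℚ)) :=
        ⟨r, by rw [← h5, sq]⟩
      exact (Rat.isSquare_intCast_iff).1 h6
    push Not at hnot
    obtain ⟨g, hg⟩ := hnot
    have sgn : ∀ (v : Qb) (n : ℤ), v ^ 2 = n → g v = v ∨ g v = -v := by
      intro v n hv
      have h7 : (g v) ^ 2 = v ^ 2 := by rw [← map_pow, hv, map_intCast]
      exact sq_eq_sq_iff_eq_or_eq_neg.1 h7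
    have gz : g u = u → g z = z := by
      intro h8
      simp only [u] at h8
      rw [map_sub, map_mul, map_ofNat, map_intCast] at h8
      linear_combination h8 / 2
    have gz' : g u' = u' → g z' = z' := by
      intro h8
      simp only [u'] at h8
      rw [map_sub, map_mul, map_ofNat, map_intCast] at h8
      linear_combination h8 / 2
    have gzn : g u = -u → g z = q / z := by
      intro h8
      simp only [u] at h8
      rw [map_sub, map_mul, map_ofNat, map_intCast] at h8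
      linear_combination h8 / 2 - hsum
    have gzn' : g u' = -u' → g z' = q / z' := by
      intro h8
      simp only [u'] at h8
      rw [map_sub, map_mul, map_ofNat, map_intCast] at h8
      linear_combination h8 / 2 - hsum'
    have hgq : g q = q := by rw [hq, map_natCast]
    have hgzz := congrArg g hzz
    rw [map_pow, map_mul, map_pow, hgq] at hgzz
    rcases sgn u _ hu with h9 | h9 <;> rcases sgn u' _ hu' with h10 | h10
    · exact hg (by rw [map_mul, h9, h10])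
    · rw [gz h9, gzn' h10] at hgzz
      apply n2
      have h11 : (z * z') ^ m = (z * (q / z')) ^ m := by rw [hzz, hgzz]
      rw [mul_pow, mul_pow] at h11
      exact mul_left_cancel₀ (pow_ne_zero _ hz0) h11
    · rw [gzn h9, gz' h10] at hgzz
      apply n1
      have h11 : (z * z') ^ m = ((q / z) * z') ^ m := by rw [hzz, hgzz]
      rw [mul_pow, mul_pow] at h11
      exact mul_right_cancel₀ (pow_ne_zero _ hz0') h11
    · exact hg (by rw [map_mul, h9, h10, neg_mul_neg])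

/-- **Families of ordinary elliptic curves.** -/
theorem ell_family (ha : 0 < a) {κ : Type} (b : κ → ℤ) (hb : ∀ k, ¬ (p : ℤ) ∣ b k)
    (hd : ∀ k, b k ^ 2 < 4 * (p ^ a : ℕ))
    (h : ∀ k l, b k = b l ∨
      ¬ IsSquare ((b k ^ 2 - 4 * (p ^ a : ℕ)) * (b l ^ 2 - 4 * (p ^ a : ℕ)))) :
    IsOnePlaceFamily p a (fun _ : κ => 1 / 2) (fun k => ellPoly (p ^ a) (b k)) where
  pos _ := by norm_num
  slopes k := ell_hasSlopes (hb k) (hd k)
  real k := ell_real p a (b k)
  incommensurable _ _ h := absurd rfl h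
  neat k l _ _ hz hz' _ hm hzz := ell_neat ha (hb k) (hb l) (hd k) (hd l) (h k l) hz hz' hm hzz

end

end Pool.Agent.KS6_5.OG
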