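import Pool.Agent.KS6_5.OG.EllNum
import Pool.Graph.R_pool_sql_team_seeded_3997aac3.Q43.RP.DefsN
import Pool.Graph.R_pool_sql_team_seeded_3997aac3.Q43.RP.Mtl
import Pool.Graph.R_pool_sql_team_seeded_3997aac3.Q43.ST.Ker

/-!
# Families of Weil numbers with one place above `p`: the Frobenius torus is maximal
-/

set_option autoImplicit false
set_option linter.unusedSectionVars false

namespace Pool.Agent.KS6_5.OG

open NumberField Polynomial Module IntermediateField
open Pool.Agent.TH121.KT Pool.Agent.KS6_5.SP Pool.Agent.KS6_5.OC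
open Pool.Agent.Q43.RP (exc invC ShortFree relSet)

noncomputable section

variable {p : ℕ} [Fact p.Prime] {a : ℕ} {ι : Type} {E : ι → Type} [∀ i, Field (E i)]
  [∀ i, NumberField (E i)] [∀ i, IsCMField (E i)] {δ : ι → ℝ} {π : ∀ i, E i}

theorem conjugate_apply {K : Type} [Field K] [NumberField K] [IsCMField K] (φ : K →+* ℂ) (x : K) :
    ComplexEmbedding.conjugate φ x = φ (IsCMField.complexConj K x) :=
  (IsCMField.complexEmbedding_complexConj K φ x).symm

/-- The words with a relation are balanced. -/
theorem shortFree_of_family [Fintype ι] (ha : 0 < a) (H : IsOnePlaceNumbers p a δ π) (k : ℕ) :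
    ShortFree E (((p ^ a : ℕ) : ℚ)) π k := by
  classical
  intro n _ w s hs hrel
  let τ : Qb →+* ℂ := (IsAlgClosed.lift : Qb →ₐ[ℚ] ℂ).toRingHom
  -- the embeddings come from the algebraic numbers
  have hlift : ∀ (i : ι) (φ : E i →+* ℂ), ∃ σ : E i →+* Qb, τ.comp σ = φ := by
    intro i
    have h1 : Function.Injective (fun σ : E i →+* Qb => τ.comp σ) := by
      intro σ σ' h
      ext x
      exact τ.injective (RingHom.congr_fun h x)
    have h2 : Fintype.card (E i →+* Qb) = Fintype.card (E i →+* ℂ) := by
      rw [NumberField.Embeddings.card, NumberField.Embeddings.card]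
    exact ((Fintype.bijective_iff_injective_and_card _).2 ⟨h1, h2⟩).2
  choose L hL using hlift
  let lab : (Σ i, (E i →+* ℂ)) → Σ i, (E i →+* Qb) := fun y => ⟨y.1, L y.1 y.2⟩
  have hlab : ∀ y : Σ i, (E i →+* ℂ), y = ⟨(lab y).1, τ.comp (lab y).2⟩ := by
    rintro ⟨i, φ⟩
    simp only [lab]
    rw [hL]
  have hinj : Function.Injective lab := by
    intro y z h
    rw [hlab y, hlab z, h]
  have hconj : ∀ y : Σ i, (E i →+* ℂ), lab (invC E y) = cjS (lab y) := by
    rintro ⟨i, φ⟩
    apply H.inj
    apply τ.injective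
    change τ (L i (ComplexEmbedding.conjugate φ) (π i)) =
      τ (L i φ (IsCMField.complexConj (E i) (π i)))
    have h1 : ∀ (ψ : E i →+* ℂ) (x : E i), τ (L i ψ x) = ψ x := fun ψ x =>
      RingHom.congr_fun (hL i ψ) x
    rw [h1, h1, conjugate_apply]
  have hval : ∀ y : Σ i, (E i →+* ℂ), τ ((lab y).2 (π (lab y).1)) = y.2 (π y.1) := by
    rintro ⟨i, φ⟩
    exact RingHom.congr_fun (hL i φ) (π i)
  have hbal := balanced_family ha H (w := 0) le_rfl (χ := X - 1) (X_sub_C_ne_zero 1)
    (narrow_one ha H.family le_rfl) (κ := Fin n × Fin 2) (fun l => lab (w l.1)) s hs 1 (by simp) n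
    (by
      apply τ.injective
      rw [map_prod, map_mul, map_pow, map_one, one_pow, one_mul, map_pow, map_pow, map_natCast]
      rw [Fintype.prod_prod_type]
      simp only [map_pow, hval]
      rw [Finset.prod_congr rfl (g := fun l => ((w l).2 (π (w l).1)) ^ (2 * s)) (fun l _ => by
        rw [Finset.prod_const, Finset.card_univ, Fintype.card_fin, ← pow_mul, mul_comm s 2])]
      rw [Finset.prod_pow, hrel]
      push_cast
      rfl)
  funext y
  unfold exc
  have h2 : ∀ z : Σ i, (E i →+* ℂ),
      (Finset.univ.filter (fun l : Fin n × Fin 2 => lab (w l.1) = lab z)).card =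
        2 * (Finset.univ.filter (fun l => w l = z)).card := by
    intro z
    have h3 : (Finset.univ.filter (fun l : Fin n × Fin 2 => lab (w l.1) = lab z)) =
        (Finset.univ.filter (fun l => w l = z)) ×ˢ (Finset.univ : Finset (Fin 2)) := by
      ext l
      simp only [Finset.mem_filter, Finset.mem_univ, true_and, Finset.mem_product, and_true]
      exact ⟨fun h => hinj h, fun h => by rw [h]⟩
    rw [h3, Finset.card_product, Finset.card_univ, Fintype.card_fin, mul_comm]
  have h4 := hbal (lab y)
  rw [← hconj, h2, h2] at h4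
  rw [Pi.zero_apply, sub_eq_zero]
  exact_mod_cast Nat.eq_of_mul_eq_mul_left two_pos h4

/-- a relation between the conjugates is trivial -/
theorem relations_of_family [Fintype ι] (ha : 0 < a) (H : IsOnePlaceNumbers p a δ π) :
    Pool.Agent.Q43.RP.relations E π = {0} := by
  classical
  ext b
  rw [Set.mem_singleton_iff]
  constructor
  · rintro ⟨hodd, s, hs, hrel⟩
    -- the word
    let Y : Type := Σ y : (Σ i, (E i →+* ℂ)), Fin (b y).toNat
    let n : ℕ := Fintype.card Y
    let e : Fin n ≃ Y := (Fintype.equivFin Y).symm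
    let w : Fin n → Σ i, (E i →+* ℂ) := fun l => (e l).1
    have hcount : ∀ y, (Finset.univ.filter (fun l => w l = y)).card = (b y).toNat := by
      intro y
      have h1 : (Finset.univ.filter (fun l => w l = y)).card =
          (Finset.univ.filter (fun x : Y => x.1 = y)).card := by
        refine Finset.card_bij (fun l _ => e l) (fun l hl => ?_) (fun l _ l' _ h => e.injective h)
          (fun x hx => ⟨e.symm x, ?_, e.apply_symm_apply x⟩)
        · rw [Finset.mem_filter] at hl ⊢
          exact ⟨Finset.mem_univ _, hl.2⟩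
        · rw [Finset.mem_filter] at hx ⊢
          refine ⟨Finset.mem_univ _, ?_⟩
          simp only [w, Equiv.apply_symm_apply]
          exact hx.2
      rw [h1]
      have h2 : (Finset.univ.filter (fun x : Y => x.1 = y)) =
          (Finset.univ : Finset (Fin (b y).toNat)).map
            ⟨fun l => (⟨y, l⟩ : Y), fun l l' h => by simpa using h⟩ := by
        ext x
        simp only [Finset.mem_filter, Finset.mem_univ, true_and, Finset.mem_map,
          Function.Embedding.coeFn_mk]
        constructor
        · rintro rfl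
          exact ⟨x.2, rfl⟩
        · rintro ⟨l, rfl⟩
          rfl
      rw [h2, Finset.card_map, Finset.card_univ, Fintype.card_fin]
    have hinv : ∀ y : Σ i, (E i →+* ℂ), invC E (invC E y) = y :=
      fun y => Pool.Agent.Q43.RP.invC_invC E y
    have hodd' : ∀ y : Σ i, (E i →+* ℂ), b (invC E y) = - b y := hodd
    have hwt : ∀ y : Σ i, (E i →+* ℂ), y.2 (π y.1) * (invC E y).2 (π y.1) =
        (((p ^ a : ℕ) : ℂ)) := by
      intro y
      change y.2 (π y.1) * ComplexEmbedding.conjugate y.2 (π y.1) = _
      rw [conjugate_apply, ← map_mul, H.weight, map_pow, map_natCast, Nat.cast_pow]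
    have hq0 : (((p ^ a : ℕ) : ℂ)) ≠ 0 :=
      Nat.cast_ne_zero.2 (pow_pos (Fact.out : p.Prime).pos _).ne'
    have hne : ∀ y : Σ i, (E i →+* ℂ), y.2 (π y.1) ≠ 0 := by
      intro y h0
      have := hwt y
      rw [h0, zero_mul] at this
      exact hq0 this.symm
    have hprodw : ∏ l, (w l).2 (π (w l).1) = ∏ y : Σ i, (E i →+* ℂ), y.2 (π y.1) ^ (b y).toNat := by
      rw [← Finset.prod_fiberwise (s := Finset.univ) (g := w)]
      refine Finset.prod_congr rfl fun y _ => ?_
      rw [Finset.prod_congr rfl (g := fun _ => y.2 (π y.1)) (fun l hl => by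
        rw [(Finset.mem_filter.1 hl).2]), Finset.prod_const, hcount]
    have hn : n = ∑ y, (b y).toNat := by
      simp only [n, Y]
      rw [Fintype.card_sigma]
      simp
    -- the two products
    have h1 : (∏ y : Σ i, (E i →+* ℂ), y.2 (π y.1) ^ (b y).toNat) *
        ∏ y : Σ i, (E i →+* ℂ), y.2 (π y.1) ^ (b (invC E y)).toNat = ((p ^ a : ℕ) : ℂ) ^ n := by
      have h2 : ∏ y : Σ i, (E i →+* ℂ), y.2 (π y.1) ^ (b (invC E y)).toNat =
          ∏ y : Σ i, (E i →+* ℂ), (invC E y).2 (π y.1) ^ (b y).toNat := by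
        rw [← Equiv.prod_comp (Function.Involutive.toPerm (invC E) hinv)]
        refine Finset.prod_congr rfl fun y _ => ?_
        change (invC E y).2 (π y.1) ^ (b (invC E (invC E y))).toNat = _
        rw [hinv]
      rw [h2, ← Finset.prod_mul_distrib, hn, ← Finset.prod_pow_eq_pow_sum]
      refine Finset.prod_congr rfl fun y _ => ?_
      rw [← mul_pow, hwt]
    have h3 : ∏ y : Σ i, (E i →+* ℂ), y.2 (π y.1) ^ b y =
        (∏ y : Σ i, (E i →+* ℂ), y.2 (π y.1) ^ (b y).toNat) /
          ∏ y : Σ i, (E i →+* ℂ), y.2 (π y.1) ^ (b (invC E y)).toNat := by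
      rw [← Finset.prod_div_distrib]
      refine Finset.prod_congr rfl fun y _ => ?_
      rw [hodd', ← zpow_natCast, ← zpow_natCast, ← zpow_sub₀ (hne y)]
      congr 1
      omega
    set A := ∏ y : Σ i, (E i →+* ℂ), y.2 (π y.1) ^ (b y).toNat with hA
    set B := ∏ y : Σ i, (E i →+* ℂ), y.2 (π y.1) ^ (b (invC E y)).toNat with hB
    have hB0 : B ≠ 0 := Finset.prod_ne_zero_iff.2 fun y _ => pow_ne_zero _ (hne y)
    have h4 : A ^ (2 * s) = (((p ^ a : ℕ) : ℂ) ^ n) ^ s := by
      have h5 : A ^ s = B ^ s := by
        rw [h3, div_pow, div_eq_one_iff_eq (pow_ne_zero _ hB0)] at hrel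
        exact hrel
      rw [← h1, mul_pow, ← h5, ← pow_add, two_mul]
    have h6 := shortFree_of_family ha H n n le_rfl w s hs (by
      rw [hprodw, h4]
      push_cast
      rfl)
    funext y
    have key : ∀ y, (b y).toNat = (b (invC E y)).toNat := by
      intro y
      have h7 := congrFun h6 y
      unfold exc at h7
      rw [Pi.zero_apply, sub_eq_zero] at h7
      have h8 := Nat.cast_injective h7
      rw [← hcount y, ← hcount (invC E y)]
      convert h8
    have h9 := key y
    rw [hodd'] at h9
    change b y = 0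
    omega
  · rintro rfl
    refine ⟨fun y => by simp, 1, one_pos, by simp⟩

end

end Pool.Agent.KS6_5.OG
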