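import Pool.Agent.KS6_5.OG.Defs
import Pool.Agent.KS6_5.OC.Pairs
import Pool.Graph.R_pool_sql_team_seeded_2aa45f1a.Q64.L.Pairs
import Pool.Graph.R_seed8.Y1.CT.Field
import Pool.Graph.R_seed8.Y1.CT.IndepDefs

/-!
# Abelian varieties with real fields with one place above `p`: the condition on the relations with the
other factor
-/

set_option autoImplicit false

namespace Pool.Agent.KS6_5.OG

open NumberField Polynomial Pool.Agent.TH121.KT Pool.Agent.KS6_5.SP Pool.Agent.KS6_5.OC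
  Pool.Agent.Y1.CT Pool.Agent.Q64.L Pool.Agent.W484.HS

noncomputable section

variable {p : ℕ} [Fact p.Prime] {a : ℕ} {κ : Type} {δ : κ → ℝ} {P : κ → ℤ[X]}

/-- **No product of letters is related to a number with slopes in an interval of length `w`, unless it
is short.** -/
theorem all_short (ha : 0 < a) (H : IsOnePlaceFamily p a δ P) {w : ℝ}
    {n : ℕ} (hn : 0 < n) (k : Fin n → κ) (z : Fin n → Qb) (hz : ∀ i, aeval (z i) (P (k i)) = 0)
    (hne : ∀ i j, i ≠ j → z i * z j ≠ ((p ^ a : ℕ) : Qb)) {Q : ℚ[X]} (hQ : Q ≠ 0) {β : Qb}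
    {M₀ s : ℕ} (hM₀ : 0 < M₀) (hβQ : aeval (β ^ M₀) Q = 0)
    (hQs : ∀ γ : Qb, aeval γ Q = 0 → ∃ c : ℝ,
      ∀ l : Qb →+* PadicAlgCl p, 2 * |Real.log ‖l γ‖ - c| ≤ w * (M₀ * Real.log ((p ^ a : ℕ) : ℝ)))
    (hs : 0 < s) (hβs : β ^ s = (∏ i, z i) ^ s) :
    ∑ i, (2 * δ (k i)) ^ 2 ≤ w ^ 2 := by
  classical
  have hL := letters_of (p := p) (a := a) (fun i => P (k i)) (fun i => δ (k i))
    (fun i => (H.pos _).le) (fun i => H.slopes _) (fun i _ => H.real _)
    (fun i j _ _ h => H.incommensurable _ _ h)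
  have hq : 0 < p ^ a := pow_pos (Fact.out : p.Prime).pos _
  have hqQ : ((p ^ a : ℕ) : Qb) ≠ 0 := Nat.cast_ne_zero.2 hq.ne'
  obtain ⟨S, hS, -, R, hR⟩ := match_letters (p := p) ha hL (RingHom.id Qb)
    (fun i => δ (k i)) hQ z (fun i => z i ^ 2 / ((p ^ a : ℕ) : Qb))
    (fun i => (mem_allLetters fun i => (H.slopes (k i)).monic).2 (Or.inr ⟨i, z i, hz i, rfl⟩))
    (fun i => by rw [RingHom.id_apply, mul_div_cancel₀ _ hqQ])
    (fun i l => (H.slopes _).log_letter (H.pos _).le (hz i) l) hM₀ hβQ w hQs hs hβs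
  have hempty : Finset.univ \ S = ∅ := by
    rw [Finset.eq_empty_iff_forall_notMem]
    intro i hi
    obtain ⟨B, hB, hiB⟩ := R.exists_mem hi
    obtain ⟨hB2, t, ht, hBt⟩ := hR B hB
    obtain ⟨x, y, hxy, rfl⟩ := Finset.card_eq_two.1 hB2
    rw [Finset.prod_pair hxy] at hBt
    exact hne x y hxy (H.neat _ _ _ _ (hz x) (hz y) t ht hBt)
  have hSu : S = Finset.univ := by
    rw [Finset.sdiff_eq_empty_iff_subset] at hempty
    exact Finset.univ_subset_iff.1 hempty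
  rw [hSu] at hS
  exact hS

theorem norm_cast_q (a : ℕ) (l : Qb →+* PadicAlgCl p) :
    ‖l ((p ^ a : ℕ) : Qb)‖ = ((p ^ a : ℕ) : ℝ)⁻¹ := by
  rw [map_natCast, norm_q]

/-- the relation with a root of a polynomial -/
theorem short_of_relation (ha : 0 < a) (H : IsOnePlaceFamily p a δ P) {w : ℝ} (hw : 0 ≤ w)
    {n : ℕ} (hn : 0 < n) (k : Fin n → κ) (z : Fin n → Qb) (hz : ∀ i, aeval (z i) (P (k i)) = 0)
    (hne : ∀ i j, i ≠ j → z i * z j ≠ ((p ^ a : ℕ) : Qb)) {χ : ℚ[X]} (hχ : χ ≠ 0) {ρ : Qb}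
    (hρ : aeval ρ χ = 0) (h0 : χ.coeff 0 ≠ 0)
    (hsl : ∀ γ : Qb, aeval γ χ = 0 → SlopesInInterval p (p ^ a) w γ)
    {s N : ℕ} (hs : 0 < s) (hN : 0 < N) {c : ℤ}
    (hrel : (∏ i, z i) ^ (s * N) * ρ ^ N = ((p ^ a : ℕ) : Qb) ^ c)
    (hdvd : ∃ e : ℤ, c = s * N * e) :
    ∑ i, (2 * δ (k i)) ^ 2 ≤ w ^ 2 := by
  classical
  obtain ⟨e, rfl⟩ := hdvd
  set q : Qb := ((p ^ a : ℕ) : Qb) with hqdef
  have hqpos : 0 < p ^ a := pow_pos (Fact.out : p.Prime).pos _
  have hq1 : 1 ≤ p ^ a := hqpos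
  have hqQ : q ≠ 0 := Nat.cast_ne_zero.2 hqpos.ne'
  have hlq : 0 ≤ Real.log ((p ^ a : ℕ) : ℝ) := Real.log_nonneg (by exact_mod_cast hq1)
  obtain ⟨kc, hkc⟩ := HasSlopes.exists_conj (p := p) (a := a)
  -- the conjugate letters
  let μ : Fin n → Qb := fun i => kc (z i)
  have hμ : ∀ i, z i * μ i = q := fun i => hkc _ _ (H.slopes _) _ (hz i)
  have hz0 : ∀ i, z i ≠ 0 := fun i => (H.slopes _).ne_zero (hz i)
  have hμz : ∀ i, aeval (μ i) (P (k i)) = 0 := fun i => aeval_aut (hz i) kc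
  have hμne : ∀ i j, i ≠ j → μ i * μ j ≠ q := by
    intro i j hij h
    apply hne i j hij
    have h1 : (z i * μ i) * (z j * μ j) = q * q := by rw [hμ, hμ]
    have h2 : (z i * z j) * (μ i * μ j) = q * q := by rw [← h1]; ring
    rw [h] at h2
    exact mul_right_cancel₀ hqQ h2
  -- the number `β`
  let E : ℤ := s * (n - e)
  obtain ⟨β, hβ⟩ := IsAlgClosed.exists_pow_nat_eq (ρ * q ^ E) hs
  have hprod : (∏ i, z i) * ∏ i, μ i = q ^ n := by
    rw [← Finset.prod_mul_distrib, Finset.prod_congr rfl fun i _ => hμ i, Finset.prod_const,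
      Finset.card_univ, Fintype.card_fin]
  have hpz : ∏ i, z i ≠ 0 := Finset.prod_ne_zero_iff.2 fun i _ => hz0 i
  have hβs : β ^ (s * N) = (∏ i, μ i) ^ (s * N) := by
    have h1 : ((∏ i, z i) ^ (s * N)) * β ^ (s * N) = (∏ i, z i) ^ (s * N) *
        (∏ i, μ i) ^ (s * N) := by
      have h2 : (∏ i, z i) ^ (s * N) * (∏ i, μ i) ^ (s * N) = q ^ (n * (s * N)) := by
        rw [← mul_pow, hprod, ← pow_mul]
      have h3 : β ^ (s * N) = ρ ^ N * q ^ (E * N) := by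
        rw [pow_mul, hβ, mul_pow, ← zpow_natCast (q ^ E), ← zpow_mul]
      rw [h2, h3, ← mul_assoc, hrel, ← zpow_add₀ hqQ, ← zpow_natCast q]
      congr 1
      simp only [E]
      push_cast
      ring
    exact mul_left_cancel₀ (pow_ne_zero _ hpz) h1
  -- the scaled polynomial
  have hqR : ((p : ℚ) ^ a) ≠ 0 := pow_ne_zero _ (Nat.cast_ne_zero.2 (Fact.out : p.Prime).ne_zero)
  let r : ℚ := ((p : ℚ) ^ a) ^ (-E)
  have hr : r ≠ 0 := zpow_ne_zero _ hqR
  let Q : ℚ[X] := χ.comp (C r * X)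
  have hrq : algebraMap ℚ Qb r = q ^ (-E) := by
    simp only [r, q]
    push_cast
    simp
  have haev : ∀ γ : Qb, aeval γ Q = aeval (q ^ (-E) * γ) χ := by
    intro γ
    simp only [Q]
    rw [aeval_comp, map_mul, aeval_C, aeval_X, hrq]
  have hQ0 : Q ≠ 0 := by
    intro h
    have h1 := congrArg (fun f => aeval (q ^ E * ρ) f) h
    have h2 : Q.coeff 0 = χ.coeff 0 := by
      simp only [Q]
      rw [Polynomial.coeff_zero_eq_eval_zero, Polynomial.coeff_zero_eq_eval_zero, eval_comp]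
      simp
    rw [h, Polynomial.coeff_zero] at h2
    exact h0 h2.symm
  refine all_short ha H hn k μ hμz hμne hQ0 (β := β) (M₀ := s) (s := s * N) hs ?_ ?_
    (Nat.mul_pos hs hN) hβs
  · rw [haev, hβ, mul_comm ρ, ← mul_assoc, ← zpow_add₀ hqQ, neg_add_cancel, zpow_zero, one_mul]
    exact hρ
  · intro γ hγ
    rw [haev] at hγ
    have hγ0 : γ ≠ 0 := by
      rintro rfl
      rw [mul_zero, aeval_def, eval₂_at_zero] at hγ
      exact h0 ((_root_.map_eq_zero _).1 hγ)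
    obtain ⟨c, hc⟩ := hsl _ hγ
    refine ⟨c - E * Real.log ((p ^ a : ℕ) : ℝ), fun l => ?_⟩
    have h1 := hc l
    have h2 : Real.log ‖l (q ^ (-E) * γ)‖ = E * Real.log ((p ^ a : ℕ) : ℝ) + Real.log ‖l γ‖ := by
      rw [map_mul, norm_mul, map_zpow₀, norm_zpow, norm_cast_q, Real.log_mul
        (zpow_ne_zero _ (inv_ne_zero (Nat.cast_ne_zero.2 hqpos.ne')))
        (norm_ne_zero_iff.2 ((_root_.map_ne_zero l).2 hγ0)), Real.log_zpow, Real.log_inv]
      push_cast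
      ring
    rw [h2] at h1
    have h3 : Real.log ‖l γ‖ - (c - E * Real.log ((p ^ a : ℕ) : ℝ)) =
        E * Real.log ((p ^ a : ℕ) : ℝ) + Real.log ‖l γ‖ - c := by ring
    rw [h3]
    refine h1.trans (mul_le_mul_of_nonneg_left ?_ hw)
    refine le_mul_of_one_le_left hlq ?_
    exact_mod_cast hs

theorem prod_getElem {X : Type*} {R : Type*} [CommMonoid R] (ys : List X) (g : X → R) :
    (ys.map g).prod = ∏ i : Fin ys.length, g ys[i] := by
  rw [← List.prod_ofFn]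
  congr 1
  exact List.ext_getElem (by simp) (fun i h1 h2 => by simp)

/-- **The relations over the complex numbers.** -/
theorem pair_complex (ha : 0 < a) (H : IsOnePlaceFamily p a δ P) {w : ℝ} (hw : 0 ≤ w)
    (s : ℕ) (hs : 0 < s) {χ : ℚ[X]} (hχ : χ ≠ 0) (hP : NarrowUnrelated p a w δ P χ) (ρ : ℂ)
    (hρ : aeval ρ χ = 0) :
    ExactPairK (fun z : {z : ℂ // ∃ i, aeval z (P i) = 0} => (z : ℂ) ^ s)
      (((p ^ a : ℕ) : ℂ) ^ s) ρ := by
  classical
  let τ : Qb →+* ℂ := (IsAlgClosed.lift : Qb →ₐ[ℚ] ℂ).toRingHom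
  obtain ⟨γ, hγχ, hγ⟩ := exists_root τ hχ hρ
  have hlab : ∀ z : {z : ℂ // ∃ i, aeval z (P i) = 0},
      ∃ (k : κ) (x : Qb), aeval x (P k) = 0 ∧ τ x = z := by
    rintro ⟨z, i, hz⟩
    have h1 : (P i).map (algebraMap ℤ ℚ) ≠ 0 := ((H.slopes i).monic.map _).ne_zero
    obtain ⟨x, hx, hxz⟩ := exists_root τ h1 (show aeval z ((P i).map (algebraMap ℤ ℚ)) = 0 by
      rwa [aeval_map_algebraMap])
    exact ⟨i, x, by rwa [aeval_map_algebraMap] at hx, hxz⟩
  choose lk lx hlx hτ using hlab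
  intro n c N hN hn ys hlen hrel hpw
  have hn' : 0 < ys.length := by omega
  have hrel1 : (∏ i : Fin ys.length, lx ys[i]) ^ (s * N) * γ ^ N =
      ((p ^ a : ℕ) : Qb) ^ ((s : ℤ) * N * c) := by
    apply τ.injective
    rw [map_mul, map_pow, map_pow, hγ, map_zpow₀, map_natCast, map_prod]
    rw [prod_getElem, mul_pow] at hrel
    rw [show ((s : ℤ) * N * c) = (s : ℤ) * (c * N) by ring, zpow_mul, zpow_natCast,
      zpow_mul, zpow_natCast, ← hrel]
    congr 1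
    rw [← Finset.prod_pow, ← Finset.prod_pow]
    refine Finset.prod_congr rfl fun i _ => ?_
    rw [pow_mul, hτ]
  have hne : ∀ i j : Fin ys.length, i ≠ j → lx ys[i] * lx ys[j] ≠ ((p ^ a : ℕ) : Qb) := by
    have key : ∀ i j : Fin ys.length, i < j → lx ys[i] * lx ys[j] ≠ ((p ^ a : ℕ) : Qb) := by
      intro i j hij h
      have h1 := List.pairwise_iff_getElem.1 hpw i j i.2 j.2 hij
      apply h1
      have h2 := congrArg (fun x => (τ x) ^ s) h
      simp only [map_mul, map_natCast, mul_pow, hτ] at h2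
      exact h2
    intro i j hij
    rcases lt_or_gt_of_ne hij with h | h
    · exact key i j h
    · rw [mul_comm]
      exact key j i h
  have hshort := short_of_relation ha H hw hn' (fun i => lk ys[i]) (fun i => lx ys[i])
    (fun i => hlx _) hne hχ hγχ hP.1 (fun g hg => (hP.2 g hg).1) hs hN hrel1 ⟨c, rfl⟩
  exact (hP.2 γ hγχ).2 _ (fun i => lk ys[i]) (fun i => lx ys[i]) hn' (fun i => hlx _) hne hshort
    (s * N) N (Nat.mul_pos hs hN) hN _ hrel1

theorem narrow_one (ha : 0 < a) (H : IsOnePlaceFamily p a δ P) {w : ℝ} (hw : 0 ≤ w) :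
    NarrowUnrelated p a w δ P (X - 1) := by
  have hq1 : 1 ≤ p ^ a := pow_pos (Fact.out : p.Prime).pos _
  have hlq : 0 ≤ Real.log ((p ^ a : ℕ) : ℝ) := Real.log_nonneg (by exact_mod_cast hq1)
  have hqpos : 0 < p ^ a := hq1
  refine ⟨by simp, fun ρ hρ => ?_⟩
  have h1 : ρ = 1 := by
    rw [map_sub, aeval_X, map_one, sub_eq_zero] at hρ
    exact hρ
  subst h1
  refine ⟨⟨0, fun l => ?_⟩, ?_⟩
  · rw [map_one, norm_one, Real.log_one, sub_zero, abs_zero, mul_zero]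
    positivity
  · intro n k z hn hz hne _ m N hm hN c hrel
    rw [one_pow, mul_one] at hrel
    have hqQ : ((p : ℚ) ^ a) ≠ 0 :=
      pow_ne_zero _ (Nat.cast_ne_zero.2 (Fact.out : p.Prime).ne_zero)
    obtain ⟨β, hβ⟩ := IsAlgClosed.exists_pow_nat_eq (((p ^ a : ℕ) : Qb) ^ c) hm
    let r : ℚ := ((p : ℚ) ^ a) ^ c
    have hr : algebraMap ℚ Qb r = ((p ^ a : ℕ) : Qb) ^ c := by
      simp only [r]
      push_cast
      simp
    have h2 := all_short (w := 0) ha H hn k z hz hne (Q := X - C r) (Polynomial.X_sub_C_ne_zero r)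
      (β := β) (M₀ := m) (s := m) hm (by
        rw [map_sub, aeval_X, aeval_C, hr, hβ, sub_self]) (fun γ hγ => by
        rw [map_sub, aeval_X, aeval_C, hr, sub_eq_zero] at hγ
        refine ⟨c * -Real.log ((p ^ a : ℕ) : ℝ), fun l => ?_⟩
        rw [hγ, map_zpow₀, norm_zpow, norm_cast_q, Real.log_zpow, Real.log_inv, sub_self, abs_zero,
          mul_zero, zero_mul]) hm (by rw [hβ, hrel])
    have h3 : 0 < ∑ i, (2 * δ (k i)) ^ 2 :=
      Finset.sum_pos (fun i _ => pow_pos (mul_pos two_pos (H.pos _)) 2) ⟨⟨0, hn⟩, Finset.mem_univ _⟩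
    rw [zero_pow two_ne_zero] at h2
    exact absurd h2 (not_le.2 h3)

/-- **Families with one place above `p` are good.** -/
theorem good_family (ha : 0 < a) (H : IsOnePlaceFamily p a δ P) {w : ℝ} (hw : 0 ≤ w) :
    Good (NarrowUnrelated p a w δ P) (p ^ a) P where
  monic i := (H.slopes i).monic
  one := narrow_one ha H hw
  coeff := fun χ h => h.1
  pair := fun _ _ _ s hs χ hχ hP ρ hρ =>
    exactPair_field P (fun i => (H.slopes i).monic) (p ^ a) s χ hχ
      (fun ρ hρ => pair_complex ha H hw s hs hχ hP ρ hρ) ρ hρ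

/-- there are no short relations if `w < 2 δ k` for all `k` -/
theorem noShortRelation_of_lt {q : ℕ} {w : ℝ} (hw : 0 ≤ w) (h : ∀ k, w < 2 * δ k) (ρ : Qb) :
    NoShortRelation q w δ P ρ := by
  intro n k z hn _ _ hsum
  exfalso
  have h1 : (2 * δ (k ⟨0, hn⟩)) ^ 2 ≤ ∑ i, (2 * δ (k i)) ^ 2 :=
    Finset.single_le_sum (f := fun i => (2 * δ (k i)) ^ 2) (fun i _ => sq_nonneg _)
      (Finset.mem_univ _)
  have h2 := pow_lt_pow_left₀ (h (k ⟨0, hn⟩)) hw two_ne_zero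
  linarith

end

end Pool.Agent.KS6_5.OG
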