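import Pool.Agent.KS6_5.OC.Defs

/-!
# Abelian varieties with real fields with one place above `p`, and other varieties: definitions
-/

set_option autoImplicit false

namespace Pool.Agent.KS6_5.OG

open Polynomial Pool.Agent.KS6_5.OC

/-- The polynomials `P k` with integral coefficients are monic, their roots have the complex absolute
values `√q`, `q = p ^ a`, and the slopes `1 / 2 + δ k` and `1 / 2 - δ k` only, where `δ k > 0`
(`HasSlopes`); for each root `z`, for some `m > 0`, the number `z ^ m + (q / z) ^ m` is contained in a Galois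
extension of `ℚ`, **depending on `z`**, with one place above `p` and with cyclic Sylow `2`-subgroups of
the Galois group (`RealFieldsOnePlace`); for `δ k ≠ δ l` no power of `z ^ 2 / q` is a power of
`z' ^ 2 / q`, for the roots `z` of `P k` and `z'` of `P l` (`Incommensurable`); and `z z' / q` is not a
root of unity different from one, for all roots `z`, `z'` of the `P k` (`neat`). -/
structure IsOnePlaceFamily (p : ℕ) [Fact p.Prime] (a : ℕ) {κ : Type} (δ : κ → ℝ)
    (P : κ → ℤ[X]) : Prop where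
  pos : ∀ k, 0 < δ k
  slopes : ∀ k, HasSlopes p (p ^ a) (δ k) (P k)
  real : ∀ k, RealFieldsOnePlace p (p ^ a) (P k)
  incommensurable : ∀ k l, δ k ≠ δ l → Incommensurable (p ^ a) (P k) (P l)
  neat : ∀ (k l : κ) (z z' : AlgebraicClosure ℚ), aeval z (P k) = 0 → aeval z' (P l) = 0 →
    ∀ m : ℕ, 0 < m → (z * z') ^ m = ((p ^ a : ℕ) : AlgebraicClosure ℚ) ^ m →
      z * z' = ((p ^ a : ℕ) : AlgebraicClosure ℚ)

/-- The slopes of the conjugates of `ρ`, with respect to `q`, lie in an interval of length `w`: the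
absolute values of `ρ` at the `p`-adic places lie within the factor `q ^ (w / 2)` of some constant. -/
def SlopesInInterval (p : ℕ) [Fact p.Prime] (q : ℕ) (w : ℝ) (ρ : AlgebraicClosure ℚ) : Prop :=
  ∃ c : ℝ, ∀ l : AlgebraicClosure ℚ →+* PadicAlgCl p, 2 * |Real.log ‖l ρ‖ - c| ≤ w * Real.log q

/-- There is no relation `(z 1 ⋯ z n) ^ m * ρ ^ N = q ^ c`, `m, N > 0`, where `n > 0`, `z i` is a root of
`P (k i)`, the product of two of the `z i` is never equal to `q`, and `∑ (2 δ (k i)) ^ 2 ≤ w ^ 2`. -/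
def NoShortRelation (q : ℕ) (w : ℝ) {κ : Type} (δ : κ → ℝ) (P : κ → ℤ[X])
    (ρ : AlgebraicClosure ℚ) : Prop :=
  ∀ (n : ℕ) (k : Fin n → κ) (z : Fin n → AlgebraicClosure ℚ), 0 < n →
    (∀ i, aeval (z i) (P (k i)) = 0) →
    (∀ i j, i ≠ j → z i * z j ≠ (q : AlgebraicClosure ℚ)) →
    ∑ i, (2 * δ (k i)) ^ 2 ≤ w ^ 2 → ∀ m N : ℕ, 0 < m → 0 < N → ∀ c : ℤ,
      (∏ i, z i) ^ m * ρ ^ N ≠ (q : AlgebraicClosure ℚ) ^ c

/-- The polynomial `χ` has a nonzero constant coefficient; the slopes of each of its roots `ρ`, with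
respect to `q = p ^ a`, lie in an interval of length `w` (which depends on `ρ`); and no root `ρ` is
related to a product of few roots of the polynomials `P k`. -/
def NarrowUnrelated (p : ℕ) [Fact p.Prime] (a : ℕ) (w : ℝ) {κ : Type} (δ : κ → ℝ) (P : κ → ℤ[X])
    (χ : ℚ[X]) : Prop :=
  χ.coeff 0 ≠ 0 ∧ ∀ ρ : AlgebraicClosure ℚ, aeval ρ χ = 0 →
    SlopesInInterval p (p ^ a) w ρ ∧ NoShortRelation (p ^ a) w δ P ρ

end Pool.Agent.KS6_5.OG
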