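import Pool.Agent.KS6_5.OG.Fields
import Pool.Agent.KS6_5.OG.Elliptic

/-!
# Ordinary elliptic curves: the numbers in the quadratic fields
-/

set_option autoImplicit false

namespace Pool.Agent.KS6_5.OG

open NumberField Polynomial IntermediateField Pool.Agent.TH121.KT Pool.Agent.KS6_5.OC

noncomputable section

variable {p : ℕ} [hp : Fact p.Prime] {a : ℕ}

theorem conj_ne_of_generates {E : Type} [Field E] [NumberField E] [IsCMField E] {x : E}
    (h : ℚ⟮x⟯ = ⊤) : IsCMField.complexConj E x ≠ x := by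
  intro hx
  apply IsCMField.complexConj_ne_one E
  have h1 : ∀ y : E, IsCMField.complexConj E y = y := by
    intro y
    have hy : y ∈ ℚ⟮x⟯ := by rw [h]; exact IntermediateField.mem_top
    induction hy using IntermediateField.adjoin_induction with
    | mem z hz => rw [Set.mem_singleton_iff.1 hz]; exact hx
    | algebraMap r => simp
    | add u v _ _ hu hv => rw [map_add, hu, hv]
    | inv u _ hu => rw [map_inv₀, hu]
    | mul u v _ _ hu hv => rw [map_mul, hu, hv]
  exact AlgEquiv.ext h1

theorem ell_weight {E : Type} [Field E] [NumberField E] [IsCMField E] {x : E} (h : ℚ⟮x⟯ = ⊤)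
    {b : ℤ} (hx : minpoly ℤ x = ellPoly (p ^ a) b) :
    x * IsCMField.complexConj E x = (p : E) ^ a := by
  have h1 : x ^ 2 - b * x + ((p ^ a : ℕ) : E) = 0 := by
    have := minpoly.aeval ℤ x
    rwa [hx, aeval_ellPoly] at this
  have h2 := congrArg (IsCMField.complexConj E) h1
  rw [map_add, map_sub, map_pow, map_mul, map_intCast, map_natCast, map_zero] at h2
  have h3 := conj_ne_of_generates h
  set y := IsCMField.complexConj E x
  have h4 : (y - x) * (x * y - ((p ^ a : ℕ) : E)) = 0 := by
    linear_combination x * h2 - y * h1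
  rcases mul_eq_zero.1 h4 with h5 | h5
  · exact absurd (sub_eq_zero.1 h5) h3
  · rw [sub_eq_zero.1 h5, Nat.cast_pow]

/-- **Ordinary elliptic curves over different quadratic fields.** -/
theorem ell_numbers (ha : 0 < a) {ι : Type} {E : ι → Type} [∀ i, Field (E i)]
    [∀ i, NumberField (E i)] [∀ i, IsCMField (E i)] (π : ∀ i, E i) (hgen : ∀ i, ℚ⟮π i⟯ = ⊤)
    (b : ι → ℤ) (hmin : ∀ i, minpoly ℤ (π i) = ellPoly (p ^ a) (b i))
    (hb : ∀ i, ¬ (p : ℤ) ∣ b i) (hd : ∀ i, b i ^ 2 < 4 * (p ^ a : ℕ))
    (h : ∀ i j, i ≠ j →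
      ¬ IsSquare ((b i ^ 2 - 4 * (p ^ a : ℕ)) * (b j ^ 2 - 4 * (p ^ a : ℕ)))) :
    IsOnePlaceNumbers p a (fun _ : ι => 1 / 2) π where
  generates := hgen
  weight i := ell_weight (hgen i) (hmin i)
  different i j hij hm := by
    rw [hmin, hmin] at hm
    have h1 : b i = b j := by
      have h2 := congrArg (fun P : ℤ[X] => P.coeff 1) hm
      simpa [ellPoly, coeff_C] using h2
    apply h i j hij
    rw [h1]
    exact ⟨_, rfl⟩
  family := by
    have h1 := ell_family (p := p) ha b hb hd (fun k l => by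
      by_cases hkl : k = l
      · exact Or.inl (by rw [hkl])
      · exact Or.inr (h k l hkl))
    rwa [show (fun i => minpoly ℤ (π i)) = fun i => ellPoly (p ^ a) (b i) from funext hmin]

end

end Pool.Agent.KS6_5.OG
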